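import Pool.Agent.H62.Poss1

set_option autoImplicit false
open FirstOrder Language

namespace Pool.Agent.Results.MP_156542_lc.NoCorr
open H62.Poss

def e {J : Type} (j : J) {l : ℕ} (a b : Fin l) : (Lg J).BoundedFormula Empty l :=
  Relations.boundedFormula₂ (Sym.r j) (&a) (&b)

def αK {I : Type} (i : I) : (Lg I).Sentence :=
  ∀' ∼(∃' (e i 0 1 ⊓ (∃' (e i 1 2 ⊓ ∀' ∼(e i 2 3)) ⊓ ∀' (e i 1 2 ⟹ ∀' ∼(e i 2 3)))))

lemma split_fam (a : ℕ → Set ℕ) (h : ∀ k, (a k).Infinite) :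
    ∃ q : Set ℕ, ∀ k, (∃ x ∈ a k, x ∉ q) ∧ ∃ x ∈ a k, x ∈ q := by
  choose f h1 h2 using fun k => (h k).exists_gt
  let g : ℕ → ℕ := fun n => Nat.rec 0 (fun n x => f (n / 2) x) n
  have hg : StrictMono g := strictMono_nat_of_lt_succ fun n => h2 _ _
  refine ⟨Set.range fun k => g (2 * k + 1), fun k => ⟨⟨g (2 * k + 1 + 1), ?_, ?_⟩, g (2 * k + 1), ?_, k, rfl⟩⟩
  · have := h1 ((2 * k + 1) / 2) (g (2 * k + 1))
    rwa [show a ((2 * k + 1) / 2) = a k from congrArg a (by omega)] at this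
  · rintro ⟨j, hj⟩
    have : 2 * j + 1 = 2 * k + 1 + 1 := hg.injective hj
    omega
  · have := h1 (2 * k / 2) (g (2 * k))
    rwa [show a (2 * k / 2) = a k from congrArg a (by omega)] at this

def φL (I : Type) : Lg (Option I) →ᴸ Lg Bool where
  onFunction := fun _ f => f.elim
  onRelation := fun _ r => match r with
    | .r j => .r j.isSome

def two {W : Type} [PartialOrder W] (R : W → W → Prop) : Bool → W → W → Prop
  | false => (· ≤ ·)
  | true => R

lemma sat_two {I W : Type} [PartialOrder W] (R : W → W → Prop) (α : (Lg (Option I)).Sentence) :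
    Sat (two R) ((φL I).onSentence α) ↔ Sat (sig fun _ : I => R) α := by
  let _ := str (two R)
  let _ := str (sig fun _ : I => R)
  have : (φL I).IsExpansionOn W := ⟨fun f => f.elim, by rintro _ ⟨_ | _⟩ x <;> rfl⟩
  exact LHom.realize_onSentence W (φL I) α

def up {J : Type} (P : J → Prop) : S {j // P j} → S J
  | .root => .root
  | .c x => .c x
  | .n k => .n k
  | .m k => .m k
  | .leaf k => .leaf k
  | .a j => .a j.1

lemma up_inj {J : Type} (P : J → Prop) : Function.Injective (up P) := by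
  intro x y; cases x <;> cases y <;> simp [up, Subtype.ext_iff]

lemma up_rel {J : Type} (P : J → Prop) (A : J → Set ℕ) (b : Bool) (x y : S {j // P j}) :
    two (R A) b (up P x) (up P y) ↔ two (R fun j : {j // P j} => A j.1) b x y := by
  cases b <;> cases x <;> cases y <;> simp [two, up, R, Subtype.ext_iff]

lemma small {J : Type} [Infinite J] (A : J → Set ℕ) (j₀ : J) (α : (Lg Bool).Sentence) :
    ∃ P : J → Prop, P j₀ ∧ Countable {j // P j} ∧
      (Sat (two (R fun j : {j // P j} => A j.1)) α ↔ Sat (two (R A)) α) := by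
  let _ := str (two (R A))
  have c1 : (Set.range (up fun j => j = j₀)).Countable := by
    have : Countable (S {j // j = j₀}) := Function.Surjective.countable
      (f := fun p : Fin 6 × C × ℕ => (![.root, .c p.2.1, .n p.2.2, .m p.2.2, .leaf p.2.2, .a ⟨j₀, rfl⟩] :
        Fin 6 → S {j // j = j₀}) p.1) fun x => by
        rcases x with _ | x | k | k | k | ⟨_, rfl⟩
        exacts [⟨(0, c0, 0), rfl⟩, ⟨(1, x, 0), rfl⟩, ⟨(2, c0, k), rfl⟩, ⟨(3, c0, k), rfl⟩, ⟨(4, c0, k), rfl⟩,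
          ⟨(5, c0, 0), rfl⟩]
    exact Set.countable_range _
  have c2 : Countable (Lg Bool).Symbols := by
    have : IsEmpty (Σ n, (Lg Bool).Functions n) := ⟨fun f => f.2.elim⟩
    have : Countable (Σ n, (Lg Bool).Relations n) := Function.Surjective.countable
      (f := fun b : Bool => ⟨2, Sym.r b⟩) (by rintro ⟨_, ⟨b⟩⟩; exact ⟨b, rfl⟩)
    exact inferInstanceAs (Countable (_ ⊕ _))
  have : Infinite (S J) := Infinite.of_injective S.n fun _ _ h => by simpa using h
  obtain ⟨W, h1, h2⟩ := exists_elementarySubstructure_card_eq (Lg Bool) (Set.range (up fun j => j = j₀))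
    Cardinal.aleph0.{0} le_rfl (by simpa using c1.le_aleph0)
    (by rw [Cardinal.lift_id, Cardinal.lift_id]; exact Cardinal.mk_le_aleph0_iff.mpr c2) (by simp)
  have c3 : Countable W := Cardinal.mk_le_aleph0_iff.mp (by simpa only [Cardinal.lift_id] using h2.le)
  have hm : ∀ x, up (fun j => S.a j ∈ W) x ∈ W := by
    intro x
    rcases x with _ | x | k | k | k | j
    exacts [h1 ⟨.root, rfl⟩, h1 ⟨.c x, rfl⟩, h1 ⟨.n k, rfl⟩, h1 ⟨.m k, rfl⟩, h1 ⟨.leaf k, rfl⟩, j.2]
  refine ⟨fun j => S.a j ∈ W, h1 ⟨.a ⟨j₀, rfl⟩, rfl⟩, Function.Injective.countable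
    (f := fun j => (⟨S.a j.1, j.2⟩ : W)) fun _ _ h => by simpa [Subtype.ext_iff] using h, ?_⟩
  let _ := str (two (R fun j : {j // S.a j ∈ W} => A j.1))
  let g : S {j // S.a j ∈ W} ≃[Lg Bool] W :=
    { toEquiv := Equiv.ofBijective (fun x => ⟨up _ x, hm x⟩) ⟨fun _ _ h => up_inj _ (congrArg Subtype.val h), by
        rintro ⟨_ | x | k | k | k | j, h⟩
        exacts [⟨.root, rfl⟩, ⟨.c x, rfl⟩, ⟨.n k, rfl⟩, ⟨.m k, rfl⟩, ⟨.leaf k, rfl⟩, ⟨.a ⟨j, h⟩, rfl⟩]⟩
      map_fun' := fun f => f.elim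
      map_rel' := by rintro _ ⟨b⟩ x; exact up_rel _ A b _ _ }
  exact (StrongHomClass.realize_sentence g α).trans (W.realize_sentence α)

theorem result (I : Type) [Nonempty I] : ∃ φ : MF I,
    (∃ α : (Lg I).Sentence, ∀ (W : Type) [Nonempty W] (R : I → W → W → Prop), KValid R φ ↔ Sat R α) ∧
    ¬∃ α : (Lg (Option I)).Sentence, ∀ (W : Type) [Nonempty W] [PartialOrder W] (R : I → W → W → Prop),
      Full R → (PValid R φ ↔ Sat (sig R) α) := by
  obtain ⟨i⟩ := ‹Nonempty I›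
  refine ⟨phi i, ⟨αK i, fun W _ R => ?_⟩, ?_⟩
  · rw [kvalid]
    let _ := str R
    simp [Sat, αK, e, Sentence.Realize, Formula.Realize, Fin.snoc, Structure.RelMap]
  · rintro ⟨α, h⟩
    have : ∀ J, Nonempty (S J) := fun _ => ⟨.root⟩
    let j₀ : {X : Set ℕ // X.Infinite} := ⟨Set.univ, Set.infinite_univ⟩
    have : Nonempty {X : Set ℕ // X.Infinite} := ⟨j₀⟩
    have : Infinite {X : Set ℕ // X.Infinite} := Infinite.of_injective
      (fun k : ℕ => ⟨Set.Ici k, Set.Ici_infinite k⟩) fun _ _ h => Set.Ici_injective (congrArg Subtype.val h)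
    obtain ⟨P, h1, h2, h3⟩ := small (fun j : {X : Set ℕ // X.Infinite} => j.1) j₀ ((φL I).onSentence α)
    have : Nonempty {j // P j} := ⟨⟨j₀, h1⟩⟩
    rw [sat_two, sat_two, ← h _ _ (full _), ← h _ _ (full _), pvalid i fun j => j.1.2.nonempty,
      pvalid i fun j => j.2.nonempty] at h3
    obtain ⟨f, hf⟩ := exists_surjective_nat {j // P j}
    obtain ⟨q, hq⟩ := split_fam (fun k => (f k).1.1) fun k => (f k).1.2
    obtain ⟨j, hj⟩ := h3.mpr (fun q => by
      rcases Set.infinite_or_finite q with h | h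
      · exact ⟨⟨q, h⟩, Or.inl fun _ h => h⟩
      · exact ⟨⟨qᶜ, h.infinite_compl⟩, Or.inr fun _ h => h⟩) q
    obtain ⟨k, rfl⟩ := hf j
    obtain ⟨⟨x, a1, a2⟩, y, a3, a4⟩ := hq k
    exact hj.elim (fun h => a2 (h x a1)) fun h => h y a3 a4

end Pool.Agent.Results.MP_156542_lc.NoCorr
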